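import Pool.Agent.W348.RG.Stms

/-! # RG-LOW: the lower bound -/

set_option autoImplicit false

namespace Pool.Agent.W613.RG

open Pool.Agent.W348.RG

variable {G : Type} [Group G]

theorem ball_mono {S : Set G} {i j : ℕ} (h : i ≤ j) : ball S i ⊆ ball S j := by
  rintro g ⟨l, h1, h2, h3⟩
  exact ⟨l, h1.trans h, h2, h3⟩

theorem ball_mul {S : Set G} {i j : ℕ} {a b : G} (ha : a ∈ ball S i) (hb : b ∈ ball S j) :
    a * b ∈ ball S (i + j) := by
  obtain ⟨l, h1, h2, h3⟩ := ha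
  obtain ⟨l', h1', h2', h3'⟩ := hb
  refine ⟨l ++ l', ?_, ?_, ?_⟩
  · rw [List.length_append]
    omega
  · intro x hx
    rcases List.mem_append.1 hx with h | h
    · exact h2 x h
    · exact h2' x h
  · rw [List.prod_append, h3, h3']

theorem ball_pow {S : Set G} {i : ℕ} {a : G} (ha : a ∈ ball S i) (k : ℕ) :
    a ^ k ∈ ball S (k * i) := by
  induction k with
  | zero => exact ⟨[], by simp, by simp, by simp⟩
  | succ k ih =>
    rw [pow_succ, Nat.succ_mul]
    exact ball_mul ih ha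

theorem ball_finite (S : Finset G) (n : ℕ) : (ball (S : Set G) n).Finite := by
  induction n with
  | zero =>
    refine (Set.finite_singleton (1 : G)).subset ?_
    rintro g ⟨l, h1, h2, h3⟩
    have : l = [] := List.length_eq_zero_iff.1 (by omega)
    subst this
    simpa using h3.symm
  | succ n ih =>
    have hT : ({x : G | x ∈ (S : Set G) ∨ x⁻¹ ∈ (S : Set G)}).Finite := by
      have h1 : {x : G | x ∈ (S : Set G) ∨ x⁻¹ ∈ (S : Set G)} = (S : Set G) ∪ (S : Set G)⁻¹ := rfl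
      rw [h1]
      exact S.finite_toSet.union S.finite_toSet.inv
    have h2 : (({(1 : G)} : Set G) ∪ Set.image2 (fun a b => a * b)
        {x : G | x ∈ (S : Set G) ∨ x⁻¹ ∈ (S : Set G)} (ball (S : Set G) n)).Finite :=
      (Set.finite_singleton 1).union (hT.image2 _ ih)
    refine h2.subset ?_
    rintro g ⟨l, h1, h2, h3⟩
    rcases l with _ | ⟨x, l⟩
    · left
      simpa using h3.symm
    · right
      refine ⟨x, h2 x (by simp), l.prod, ⟨l, ?_, ?_, rfl⟩, ?_⟩
      · rw [List.length_cons] at h1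
        omega
      · intro y hy
        exact h2 y (List.mem_cons_of_mem x hy)
      · rw [List.prod_cons] at h3
        exact h3

theorem RF_ge {S : Finset G} {n : ℕ} {g : G} (hg : g ∈ ball (S : Set G) n) (hg1 : g ≠ 1) :
    DG g ≤ RF (S : Set G) n := by
  unfold RF
  refine le_csSup ?_ ⟨g, hg, hg1, rfl⟩
  have h1 : {k | ∃ g ∈ ball (S : Set G) n, g ≠ 1 ∧ DG g = k} ⊆ DG '' (ball (S : Set G) n) := by
    rintro k ⟨g, hg, -, rfl⟩
    exact ⟨g, hg, rfl⟩
  exact (((ball_finite S n).image DG).subset h1).bddAbove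

/-- lower bounds for `DG` -/
theorem DG_ge {g : G} {k : ℕ} (hne : ∃ N : Subgroup G, N.Normal ∧ N.index ≠ 0 ∧ g ∉ N)
    (h : ∀ N : Subgroup G, N.Normal → N.index ≠ 0 → g ∉ N → k ≤ N.index) : k ≤ DG g := by
  unfold DG
  obtain ⟨N, hN, hi, hg⟩ := hne
  have h1 := Nat.sInf_mem (s := {k | 0 < k ∧ ∃ N : Subgroup G, N.Normal ∧ N.index = k ∧ g ∉ N})
    ⟨N.index, Nat.pos_of_ne_zero hi, N, hN, rfl, hg⟩
  obtain ⟨h2, N', hN', hi', hg'⟩ := h1
  have h3 := h N' hN' (by omega) hg'
  omega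

/-- the index bound -/
theorem index_bound (hf : S_finp) [Group.IsNilpotent G] (g₀ : G) (c p₀ m : ℕ)
    (hp₀ : ∀ p, p₀ ≤ p → p.Prime → ∀ j ≤ c, ∀ N : Subgroup G, N.Normal → N.index = p ^ j → g₀ ∈ N)
    (hm : p₀ ≤ m) (N : Subgroup G) (hN : N.Normal) (hi : N.index ≠ 0)
    (hg : g₀ ^ (Nat.lcmUpto m ^ (2 * (c + 1))) ∉ N) : m ^ (c + 1) ≤ N.index := by
  obtain ⟨p, j, N', hp, hN', -, hg', hidx, hdvd⟩ := hf G N hN hi _ hg
  refine le_trans ?_ (Nat.le_of_dvd (Nat.pos_of_ne_zero hi) hdvd)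
  rw [hidx]
  rcases Nat.lt_or_ge m p with hmp | hpm
  · -- large primes
    have h1 : g₀ ∉ N' := fun h => hg' (N'.pow_mem h _)
    have h2 : c < j := by
      by_contra h3
      exact h1 (hp₀ p (by omega) hp j (by omega) N' hN' hidx)
    calc m ^ (c + 1) ≤ p ^ (c + 1) := Nat.pow_le_pow_left hmp.le _
      _ ≤ p ^ j := Nat.pow_le_pow_right hp.pos h2
  · set e := Nat.log p m with he
    set q : G ⧸ N' := QuotientGroup.mk g₀ with hq
    have h1 : orderOf q ∣ p ^ j := by
      rw [← hidx]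
      exact orderOf_dvd_natCard q
    obtain ⟨a, ha, hoa⟩ := (Nat.dvd_prime_pow hp).1 h1
    have h2 : p ^ e ∣ Nat.lcmUpto m := by
      unfold Nat.lcmUpto
      refine Finset.dvd_lcm (f := id) (b := p ^ e) ?_
      rw [Finset.mem_Icc]
      exact ⟨Nat.one_le_pow _ _ hp.pos, Nat.pow_log_le_self p (by
        have := hp.pos
        omega)⟩
    have h3 : 2 * (c + 1) * e < a := by
      by_contra hcon
      push Not at hcon
      have h4 : orderOf q ∣ Nat.lcmUpto m ^ (2 * (c + 1)) := by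
        rw [hoa]
        refine (pow_dvd_pow p hcon).trans ?_
        rw [mul_comm, pow_mul]
        exact pow_dvd_pow_of_dvd h2 _
      rw [orderOf_dvd_iff_pow_eq_one] at h4
      apply hg'
      rw [← QuotientGroup.eq_one_iff, QuotientGroup.mk_pow]
      exact h4
    have h5 : 0 < e := Nat.log_pos hp.one_lt hpm
    have h6 : m ≤ p ^ (2 * e) := by
      have h7 := Nat.lt_pow_succ_log_self hp.one_lt m
      refine h7.le.trans (Nat.pow_le_pow_right hp.pos ?_)
      omega
    calc m ^ (c + 1) ≤ (p ^ (2 * e)) ^ (c + 1) := Nat.pow_le_pow_left h6 _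
      _ = p ^ (2 * (c + 1) * e) := by
        rw [← pow_mul]
        congr 1
        ring
      _ ≤ p ^ a := Nat.pow_le_pow_right hp.pos h3.le
      _ ≤ p ^ j := Nat.pow_le_pow_right hp.pos ha

theorem low (hf : S_finp) : S_low := by
  intro G _ _ S hS hrf htf c ⟨g₀, hg₀, p₀, hp₀⟩
  -- word length
  have hg₀S : g₀ ∈ Submonoid.closure ((S : Set G) ∪ (S : Set G)⁻¹) := by
    rw [← Subgroup.closure_toSubmonoid, hS]
    trivial
  obtain ⟨w, hw1, hw2⟩ := Submonoid.exists_list_of_mem_closure hg₀S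
  set ℓ : ℕ := w.length + 1 with hℓ
  have hgball : g₀ ∈ ball (S : Set G) ℓ := ⟨w, by omega, hw1, hw2⟩
  have hℓ1 : (1 : ℝ) ≤ ℓ := by
    rw [hℓ]
    push_cast
    linarith [Nat.cast_nonneg (α := ℝ) w.length]
  have hlogℓ : 0 ≤ Real.log ℓ := Real.log_nonneg hℓ1
  -- an element of S
  obtain ⟨s, hs, hs1⟩ : ∃ s ∈ S, s ≠ 1 := by
    by_contra hcon
    push Not at hcon
    have h1 : (S : Set G) ⊆ ((⊥ : Subgroup G) : Set G) := by
      intro x hx
      exact Subgroup.mem_bot.2 (hcon x hx)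
    have h2 : Subgroup.closure (S : Set G) ≤ ⊥ := (Subgroup.closure_le _).2 h1
    rw [hS] at h2
    exact hg₀ (Subgroup.mem_bot.1 (h2 (Subgroup.mem_top g₀)))
  have hRF1 : ∀ n : ℕ, 1 ≤ n → 1 ≤ RF (S : Set G) n := by
    intro n hn
    have h1 : s ∈ ball (S : Set G) n :=
      ⟨[s], by simpa using hn, by simpa using Or.inl hs, by simp⟩
    refine le_trans ?_ (RF_ge h1 hs1)
    exact DG_ge (hrf s hs1) fun N _ hi _ => Nat.pos_of_ne_zero hi
  have hRFm : ∀ m n : ℕ, p₀ ≤ m → Nat.lcmUpto m ^ (2 * (c + 1)) * ℓ ≤ n →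
      m ^ (c + 1) ≤ RF (S : Set G) n := by
    intro m n hm hn
    have h1 := ball_mono hn (ball_pow hgball (Nat.lcmUpto m ^ (2 * (c + 1))))
    have h2 : g₀ ^ (Nat.lcmUpto m ^ (2 * (c + 1))) ≠ 1 := fun h =>
      hg₀ (htf g₀ _ (pow_pos (Nat.lcmUpto_pos m) _) h)
    refine le_trans ?_ (RF_ge h1 h2)
    exact DG_ge (hrf _ h2) fun N hN hi hg => index_bound hf g₀ c p₀ m hp₀ hm N hN hi hg
  -- the constants
  set K : ℝ := 2 * ((c : ℝ) + 1) with hK
  have hK0 : 0 < K := by positivity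
  set C₁ : ℝ := Real.log 4 + 4 with hC₁
  have hC₁0 : 0 < C₁ := by
    have : 0 < Real.log 4 := Real.log_pos (by norm_num)
    linarith
  set D : ℝ := 2 * (K * C₁) + Real.log ℓ + 1 with hD
  set D' : ℝ := 1 + Real.log ℓ + K * C₁ * ((p₀ : ℝ) + 1) with hD'
  have hD0 : 0 < D := by positivity
  have hD'0 : 0 < D' := by positivity
  set M : ℝ := max D D' with hM
  have hM0 : 0 < M := lt_max_of_lt_left hD0
  refine ⟨1 / M ^ (c + 1), by positivity, fun n hn => ?_⟩
  have hn1 : (1 : ℝ) ≤ n := by exact_mod_cast hn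
  have hlogn : 0 ≤ Real.log n := Real.log_nonneg hn1
  rw [div_mul_eq_mul_div, one_mul, div_le_iff₀ (by positivity)]
  -- the choice of m
  set x : ℝ := (Real.log n - Real.log ℓ) / (K * C₁) with hx
  rcases lt_or_ge x ((p₀ : ℝ) + 1) with hxs | hxl
  · -- n small
    have h1 : 1 + Real.log n ≤ D' := by
      rw [hx, div_lt_iff₀ (by positivity)] at hxs
      rw [hD']
      nlinarith
    have h2 : (1 + Real.log n) ^ (c + 1) ≤ M ^ (c + 1) :=
      pow_le_pow_left₀ (by positivity) (h1.trans (le_max_right _ _)) _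
    have h3 : (1 : ℝ) ≤ RF (S : Set G) n := by exact_mod_cast hRF1 n hn
    calc (1 + Real.log n) ^ (c + 1) ≤ 1 * M ^ (c + 1) := by rw [one_mul]; exact h2
      _ ≤ _ := mul_le_mul_of_nonneg_right h3 (by positivity)
  · set m : ℕ := ⌊x⌋₊ with hm
    have hx0 : 0 ≤ x := by
      have : (0 : ℝ) ≤ p₀ := Nat.cast_nonneg p₀
      linarith
    have hm1 : (m : ℝ) ≤ x := Nat.floor_le hx0
    have hm2 : x < (m : ℝ) + 1 := Nat.lt_floor_add_one x
    have hm3 : p₀ + 1 ≤ m := by
      rw [hm]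
      exact Nat.le_floor (by push_cast; exact hxl)
    have hm4 : (1 : ℝ) ≤ m := by exact_mod_cast (by omega : 1 ≤ m)
    have hsmall : Nat.lcmUpto m ^ (2 * (c + 1)) * ℓ ≤ n := by
      have h1 : Real.log ((Nat.lcmUpto m : ℝ) ^ (2 * (c + 1)) * ℓ) ≤ Real.log n := by
        have h2 : (0 : ℝ) < Nat.lcmUpto m := by exact_mod_cast Nat.lcmUpto_pos m
        rw [Real.log_mul (by positivity) (by positivity), Real.log_pow,
          ← Chebyshev.psi_eq_log_lcmUpto]
        have h3 := Chebyshev.psi_le_const_mul_self (x := (m : ℝ)) (by positivity)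
        have h4 : ((2 * (c + 1) : ℕ) : ℝ) = K := by
          rw [hK]
          push_cast
          ring
        rw [h4]
        rw [hx, le_div_iff₀ (by positivity)] at hm1
        have h5 : K * Chebyshev.psi (m : ℝ) ≤ K * (C₁ * m) := mul_le_mul_of_nonneg_left h3 hK0.le
        nlinarith
      have h2 : (0 : ℝ) < Nat.lcmUpto m := by exact_mod_cast Nat.lcmUpto_pos m
      have h6 := (Real.log_le_log_iff (by positivity) (by linarith)).1 h1
      exact_mod_cast h6
    have hR := hRFm m n (by omega) hsmall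
    have h1 : 1 + Real.log n ≤ D * m := by
      rw [hx, div_lt_iff₀ (by positivity)] at hm2
      rw [hD]
      have h7 : Real.log ℓ ≤ Real.log ℓ * m := le_mul_of_one_le_right hlogℓ hm4
      have h8 : K * C₁ ≤ K * C₁ * m := le_mul_of_one_le_right (by positivity) hm4
      nlinarith
    have h2 : 1 + Real.log n ≤ M * m :=
      h1.trans (mul_le_mul_of_nonneg_right (le_max_left _ _) (by positivity))
    calc (1 + Real.log n) ^ (c + 1) ≤ (M * m) ^ (c + 1) :=
          pow_le_pow_left₀ (by positivity) h2 _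
      _ = (m : ℝ) ^ (c + 1) * M ^ (c + 1) := by rw [mul_pow, mul_comm]
      _ ≤ (RF (S : Set G) n : ℝ) * M ^ (c + 1) := by
        refine mul_le_mul_of_nonneg_right ?_ (by positivity)
        exact_mod_cast hR

end Pool.Agent.W613.RG
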